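import Pool.Agent.EGF.StmtsV

/-!
Squad EGF, row SPC: the contradiction for two families of spots.
-/

set_option autoImplicit false

open Finset

namespace Pool.Agent.EGF.H17

theorem sy2_of_spots {V : Type} [DecidableEq V] {k : ℕ} {c : V → V → Fin k} {g : Fin k}
    {A : Finset V} {N T m : ℕ} {X0 X1 : ℕ → Finset V} {R : ℕ → V → Finset V} {K : ℝ}
    (h : Spots c g A N T m X0 X1 R) (hT : 1 ≤ T) (hN : (N : ℝ) ≤ K * T) {i : ℕ} (hi : i < m) :
    Sy2 A (X0 i) (X1 i) (R i) T K := by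
  obtain ⟨a, b, d, e, -⟩ := h.h0 i hi
  exact ⟨hT, a, b, d, fun x hx => (h.hR i hi x hx).1, fun x hx => (h.hR i hi x hx).2.1,
    by rw [e]; exact hN⟩

theorem spc (h1 : AvsStmt) (h2 : CrqStmt) : SpcStmt := by
  intro V _ k c g e U A B F N T m m' X0 X1 Y0 Y1 R S q M κ E hNo hAU hBU hAB hA hB hF hq hqM hM1
    hκ hE hT hm hm' hL hSat hET hN hmA hmB hS1 hS2
  have hM : 0 < M := hq.trans_le hqM
  have hq1 : q ≤ 1 := hqM.trans hM1
  have hTR : (1 : ℝ) ≤ T := by exact_mod_cast hT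
  have hK1 : 1 ≤ 2 / q := by
    rw [le_div_iff₀ hq]
    linarith
  have hM4 : M ^ 4 ≤ 1 := pow_le_one₀ hM.le hM1
  have hET' : E ≤ T := by
    have a1 : E ≤ E * (2 / q) ^ ⌈1 / (2 * M ^ 2)⌉₊ :=
      le_mul_of_one_le_right hE.le (one_le_pow₀ hK1)
    have a2 : M ^ 4 / 10 ^ 6 * T ≤ T := mul_le_of_le_one_left (by linarith) (by
      rw [div_le_one (by norm_num)]
      linarith)
    linarith
  obtain ⟨i, hi, j, hj, s1, s2, s3, s4⟩ := h1 V k c g A B F N T m m' X0 X1 Y0 Y1 R S M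
    (q ^ 2 * κ / (4 * 10 ^ 4)) (4 / (q * κ)) κ E hA hB hM hM1 (by positivity) (by positivity) hκ
    hET' hT hm hm' (by
      have a1 : 4 / (q * κ) * (q ^ 2 * κ / (4 * 10 ^ 4)) = q / 10 ^ 4 := by
        field_simp
      rw [a1]
      exact div_le_div_of_nonneg_right hqM (by norm_num)) hL hSat (by
      have a1 : 4 / (q * κ) * κ * (T : ℝ) = 2 * (2 / q * T) := by
        field_simp
        ring
      rw [a1]
      linarith) hmA hmB hS1 hS2
  have hSat' : SatF A B (ind F) E ((1 + 1 / 200) * M) := by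
    intro A' hA' B' hB' hc1 hc2
    refine (hSat A' hA' B' hB' hc1 hc2).trans ?_
    refine mul_le_mul_of_nonneg_right ?_ (by positivity)
    nlinarith
  have hBin : Bin (ind F) := by
    intro a b
    unfold ind
    split_ifs
    · exact Or.inr rfl
    · exact Or.inl rfl
  obtain ⟨x, hx, w, hw, y, hy, z, hz, f1, f2, f3, f4⟩ := h2 V V A (X0 i) (X1 i) B (Y0 j) (Y1 j)
    (R i) (S j) (ind F) E M (2 / q) T hBin hM hM1 hE hK1 hSat'
    (sy2_of_spots hS1 hT hN hi) (sy2_of_spots hS2 hT hN hj) hET s1 s2 s3 s4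
  have key : ∀ a b, ind F a b = 1 → (a, b) ∈ F := by
    intro a b hab
    unfold ind at hab
    by_contra hc
    rw [if_neg hc] at hab
    exact zero_ne_one hab
  have hxA := (hS1.h0 i hi).1 hx
  have hyB := (hS2.h0 j hj).1 hy
  obtain ⟨r1, -, r2⟩ := hS1.hR i hi x hx
  obtain ⟨r3, -, r4⟩ := hS2.hR j hj y hy
  obtain ⟨hwx, cxw⟩ := r2 w hw
  obtain ⟨hzy, cyz⟩ := r4 z hz
  have hwA := (hS1.h0 i hi).2.1 (r1 hw)
  have hzB := (hS2.h0 j hj).2.1 (r3 hz)
  have hne : ∀ a ∈ A, ∀ b ∈ B, a ≠ b := fun a ha b hb hab =>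
    Finset.disjoint_left.1 hAB ha (hab ▸ hb)
  have e1 := hF x hxA y hyB (key _ _ f1)
  have e2 := hF w hwA y hyB (key _ _ f2)
  have e3 := hF x hxA z hzB (key _ _ f3)
  have e4 := hF w hwA z hzB (key _ _ f4)
  exact hNo x (hAU hxA) w (hAU hwA) y (hBU hyB) z (hBU hzB) hwx.symm hzy.symm
    (hne x hxA y hyB) (hne x hxA z hzB) (hne w hwA y hyB) (hne w hwA z hzB)
    (cxw.trans cyz.symm) (e1.trans e3.symm) (e1.trans e2.symm) (e1.trans e4.symm)

end Pool.Agent.EGF.H17
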