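import Pool.Agent.EGF.StmtsQ

/-!
# Squad EGF, block Q, row ST0 (helper17): from the beginning to constant flatness
-/

set_option autoImplicit false

open Finset

namespace Pool.Agent.EGF.H17

/-- the least level of the tower which exceeds a given number -/
lemma st0_level (r : ℕ) (l : ℝ) (hr : 2 ≤ r) :
    ∃ n : ℕ, l ≤ (r : ℝ) ^ (2 ^ (n + 1)) ∧ (r : ℝ) ^ (2 ^ (n + 1)) ≤ (r : ℝ) ^ 2 + l ^ 2 := by
  have hr' : (2 : ℝ) ≤ r := by exact_mod_cast hr
  have hex : ∃ n : ℕ, l ≤ (r : ℝ) ^ (2 ^ (n + 1)) := by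
    obtain ⟨m, hm⟩ := pow_unbounded_of_one_lt l (show (1 : ℝ) < r by linarith)
    refine ⟨m, hm.le.trans ?_⟩
    apply pow_le_pow_right₀ (by linarith)
    have h1 : m < 2 ^ m := Nat.lt_two_pow_self
    have h2 : 2 ^ m ≤ 2 ^ (m + 1) := Nat.pow_le_pow_right (by norm_num) (by omega)
    omega
  classical
  let n := Nat.find hex
  have hn : l ≤ (r : ℝ) ^ (2 ^ (n + 1)) := Nat.find_spec hex
  refine ⟨n, hn, ?_⟩
  rcases Nat.eq_zero_or_pos n with h0 | hpos
  · rw [h0]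
    norm_num
    positivity
  · obtain ⟨m, hm⟩ : ∃ m, n = m + 1 := ⟨n - 1, by omega⟩
    have hlt : m < Nat.find hex := by
      show m < n
      omega
    have h1 : ¬ l ≤ (r : ℝ) ^ (2 ^ (m + 1)) := Nat.find_min hex hlt
    push Not at h1
    have h2 : (r : ℝ) ^ (2 ^ (n + 1)) = ((r : ℝ) ^ (2 ^ (m + 1))) ^ 2 := by
      rw [← pow_mul, hm]
      congr 1
    rw [h2]
    have h3 : (0 : ℝ) ≤ (r : ℝ) ^ (2 ^ (m + 1)) := by positivity
    have h4 : ((r : ℝ) ^ (2 ^ (m + 1))) ^ 2 ≤ l ^ 2 := by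
      apply pow_le_pow_left₀ h3 h1.le
    have h5 : (0 : ℝ) ≤ (r : ℝ) ^ 2 := by positivity
    linarith

theorem st0 (hINI : IniStmt) (hBOO : BooStmt) : St0Stmt := by
  intro V _ k c θ r W hsym hNo hθ hθ1 hr hW hpal hbig1 hbig2
  -- `k` is positive
  obtain ⟨x0, hx0⟩ := hW
  have hk1 : 1 ≤ k := by
    have := (c x0 x0).pos
    omega
  have hW : W.Nonempty := ⟨x0, hx0⟩
  have hk1' : (1 : ℝ) ≤ k := by exact_mod_cast hk1
  have hlk : 0 ≤ Real.log (2 * k) := Real.log_nonneg (by linarith)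
  have hlk' : Real.log k ≤ Real.log (2 * k) :=
    Real.log_le_log (by linarith) (by linarith)
  -- `r` is large
  have h128 : (128 : ℝ) ≤ 128 / θ := by
    rw [le_div_iff₀ hθ]; nlinarith
  have hr2' : (2 : ℝ) ≤ r := by nlinarith
  have hr2 : 2 ≤ r := by exact_mod_cast hr2'
  set l : ℝ := 35 * Real.log (2 * k) / θ with hl
  obtain ⟨n, hn1, hn2⟩ := st0_level r l hr2
  set D : ℝ := (r : ℝ) ^ (2 ^ (n + 1)) with hD
  have hD0 : 0 ≤ D := by positivity
  set s' : ℕ := 32 * r ^ (2 ^ (n + 1)) + 1 with hs'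
  have hs1 : 1 ≤ s' := by omega
  have hs1' : (1 : ℝ) ≤ (s' : ℝ) := by exact_mod_cast hs1
  -- INI
  obtain ⟨W1, hW1, hW1n, hflat, hrat, hlog⟩ := hINI V k c W θ (1 / 16) (1 / 16) s' hNo hθ
    (by norm_num) (by norm_num) (by norm_num) (by norm_num) hs1 hW hpal (by linarith)
  have hflat' : Flat c W1 s' (D * (s' : ℝ)) := by
    intro S hS hSc
    refine (hflat S hS hSc).trans ?_
    have h1 : (1 + (s' : ℝ) / (1 / 16)) * Real.log (2 * k) / ((1 - 1 / 16) * θ) ≤ l * s' := by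
      have h2 : l * (s' : ℝ) = (35 * s' * (15 / 16)) * Real.log (2 * k) / ((1 - 1 / 16) * θ) := by
        rw [hl]
        field_simp
        ring
      rw [h2]
      apply div_le_div_of_nonneg_right _ (by nlinarith)
      apply mul_le_mul_of_nonneg_right _ hlk
      have : (s' : ℝ) / (1 / 16) = 16 * s' := by ring
      rw [this]
      linarith
    refine h1.trans ?_
    exact mul_le_mul_of_nonneg_right hn1 (by linarith)
  have hpal0 : (0 : ℝ) ≤ ((pal c W1).card : ℝ) := by positivity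
  have hrat' : θ * (1 / 2 + 1 / 8 * (1 - 1 / 2 ^ n)) * (pal c W1).card ≤ Real.log W1.card := by
    refine le_trans ?_ hrat
    apply mul_le_mul_of_nonneg_right _ hpal0
    have h1 : (0 : ℝ) ≤ 1 / 2 ^ n := by positivity
    nlinarith
  have hlogW : Real.log W.card ≤ 32 * Real.log W1.card := by linarith
  have hsize : D * (Real.log k + 40) ≤ Real.log W1.card := by
    have h1 : D * (Real.log k + 40) ≤ (r ^ 2 + l ^ 2) * (Real.log (2 * k) + 40) := by
      apply mul_le_mul hn2 (by linarith) _ (by positivity)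
      have : 0 ≤ Real.log (k : ℝ) := Real.log_nonneg hk1'
      linarith
    linarith
  obtain ⟨W', hW', hW'n, hf, hp, hlg⟩ := hBOO V k c θ r n W1 hsym
    (fun x hx x' hx' y hy y' hy' => hNo x (hW1 hx) x' (hW1 hx') y (hW1 hy) y' (hW1 hy'))
    hθ hθ1 hr hW1n hflat' hrat' hsize
  refine ⟨W', hW'.trans hW1, hW'n, hf, hp, ?_⟩
  have hc1 : (1 : ℝ) ≤ (W'.card : ℝ) := by exact_mod_cast hW'n.card_pos
  have h0 : 0 ≤ Real.log (W'.card : ℝ) := Real.log_nonneg hc1
  have h1 : D * Real.log W'.card ≤ (r ^ 2 + l ^ 2) * Real.log W'.card :=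
    mul_le_mul_of_nonneg_right hn2 h0
  linarith

end Pool.Agent.EGF.H17
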